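import Pool.Agent.L7h49.PM.Def2

/-! Project PM (helper49, MP_8ede36_co), second half: part NEIGH, any two tracks can be joined by an
edge. -/

set_option autoImplicit false

namespace Pool.Agent.L7h60.PM

open Pool.Agent.L7h49.PM

theorem s_NEIGH (h1 : S_SWAP) (h2 : S_HOOK) : S_NEIGH := by
  intro V G f C hR t X eta B i j hSt hij
  have hC := hR.one
  have hne : ∀ {X : ℝ} {eta : Fin t → ℝ} {B : Fin t → Set V}, St G f C X eta B →
      ∀ k l, k ≠ l → eta k ≠ eta l := by
    intro X eta B h k l hkl heq
    have h3 := h.sep k l hkl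
    rw [heq, sub_self, abs_zero] at h3
    linarith
  have main : ∀ (n : ℕ) (i j : Fin t) (X : ℝ) (eta : Fin t → ℝ) (B : Fin t → Set V),
      St G f C X eta B → eta i < eta j →
      (Finset.univ.filter (fun l => eta i < eta l ∧ eta l < eta j)).card = n →
      ∃ (X' : ℝ) (eta' : Fin t → ℝ) (B' : Fin t → Set V), (∀ k, B k ⊆ B' k) ∧
        St G f C X' eta' B' ∧ ∃ u ∈ B' i, ∃ v ∈ B' j, G.Adj u v := by
    intro n
    induction n using Nat.strong_induction_on with
    | _ n ih =>
    intro i j X eta B hSt hlt hcard
    by_cases hemp : (Finset.univ.filter (fun l => eta i < eta l ∧ eta l < eta j)).Nonempty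
    · obtain ⟨k, hk, hmin⟩ := Finset.exists_min_image _ eta hemp
      rw [Finset.mem_filter] at hk
      obtain ⟨-, hik, hkj⟩ := hk
      have hkin : k ∈ Finset.univ.filter (fun l => eta i < eta l ∧ eta l < eta j) :=
        Finset.mem_filter.2 ⟨Finset.mem_univ _, hik, hkj⟩
      have hnb : ∀ l, l ≠ i → l ≠ k → eta l < eta i ∨ eta k < eta l := by
        intro l hli hlk
        rcases lt_or_gt_of_ne (hne hSt l i hli) with h | h
        · exact Or.inl h
        · right
          rcases lt_or_gt_of_ne (hne hSt l k hlk) with h' | h'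
          · have h3 := hmin l (Finset.mem_filter.2 ⟨Finset.mem_univ _, h, h'.trans hkj⟩)
            exact absurd h3 (not_le.2 h')
          · exact h'
      obtain ⟨X', eta', B', hB, hSt', hki', hlow, hhigh, hord⟩ :=
        h1 V G f C hR t X eta B i k hSt hik hnb
      have hji : j ≠ i := by rintro rfl; exact lt_irrefl _ hlt
      have hjk : j ≠ k := by rintro rfl; exact lt_irrefl _ hkj
      have hij' : eta' i < eta' j := hhigh j hji hjk hkj
      have hsub : Finset.univ.filter (fun l => eta' i < eta' l ∧ eta' l < eta' j) ⊆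
          (Finset.univ.filter (fun l => eta i < eta l ∧ eta l < eta j)).erase k := by
        intro l hl
        rw [Finset.mem_filter] at hl
        obtain ⟨-, h3, h4⟩ := hl
        have hlk : l ≠ k := by rintro rfl; exact absurd (h3.trans hki') (lt_irrefl _)
        have hli : l ≠ i := by rintro rfl; exact lt_irrefl _ h3
        have hlj : l ≠ j := by rintro rfl; exact lt_irrefl _ h4
        rw [Finset.mem_erase, Finset.mem_filter]
        refine ⟨hlk, Finset.mem_univ _, ?_, ?_⟩
        · rcases lt_or_gt_of_ne (hne hSt l i hli) with h | h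
          · have h5 := hlow l hli hlk h
            exact absurd (h3.trans (h5.trans hki')) (lt_irrefl _)
          · exact h
        · rcases lt_or_gt_of_ne (hne hSt l j hlj) with h | h
          · exact h
          · have h5 := hord j l hji hjk hli hlk h
            exact absurd (h4.trans h5) (lt_irrefl _)
      have hcard' : (Finset.univ.filter (fun l => eta' i < eta' l ∧ eta' l < eta' j)).card < n := by
        refine lt_of_le_of_lt (Finset.card_le_card hsub) ?_
        rw [← hcard]
        exact Finset.card_erase_lt_of_mem hkin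
      obtain ⟨X'', eta'', B'', hB', hSt'', hadj⟩ := ih _ hcard' i j X' eta' B' hSt' hij' rfl
      exact ⟨X'', eta'', B'', fun m => (hB m).trans (hB' m), hSt'', hadj⟩
    · have hnb : ∀ l, l ≠ i → l ≠ j → eta l < eta i ∨ eta j < eta l := by
        intro l hli hlj
        rcases lt_or_gt_of_ne (hne hSt l i hli) with h | h
        · exact Or.inl h
        · right
          rcases lt_or_gt_of_ne (hne hSt l j hlj) with h' | h'
          · exact absurd ⟨l, Finset.mem_filter.2 ⟨Finset.mem_univ _, h, h'⟩⟩ hemp
          · exact h'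
      obtain ⟨B', hB, hSt', hadj⟩ := h2 V G f C hR t X eta B i j hSt hlt hnb
      exact ⟨_, eta, B', hB, hSt', hadj⟩
  rcases lt_or_gt_of_ne (hne hSt i j hij) with h | h
  · exact main _ i j X eta B hSt h rfl
  · obtain ⟨X', eta', B', hB, hSt', u, hu, v, hv, huv⟩ := main _ j i X eta B hSt h rfl
    exact ⟨X', eta', B', hB, hSt', v, hv, u, hu, huv.symm⟩

end Pool.Agent.L7h60.PM
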